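import Pool.Agent.Work.MP_64ea0f_cs.InterfaceC

set_option autoImplicit false

/-! # Block C_SYR (helper94): symmetries commute with the action of all elements -/

namespace Pool.CS

theorem c_syr_thm : Stmt_C_SYC → Stmt_C_SYR := by
  intro hSYC Λ G H Θ hΘ M _ L hL c
  induction c using rac_induction_right with
  | h1 =>
    intro x y h1 h2
    rw [LS.r_one, LS.r_one]
    exact ⟨h1, h2⟩
  | h2 a c ih =>
    intro x y h1 h2
    obtain ⟨h3, h4⟩ := ih x y h1 h2
    rw [LS.r_mul, LS.r_mul, LS.r_rg, LS.r_rg, hL, hL]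
    exact (hSYC Λ G H Θ hΘ).2 M a (L.r x c) (L.r y c) h3 h4

end Pool.CS
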