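import Pool.Agent.Work.MP_64ea0f_cs.InterfaceD

set_option autoImplicit false

/-! # Block SMF (helper94): functions on a set with a map of prime order -/

namespace Pool.CS.SMF94

open Function

section
variable {X : Type} {σ : X → X} {p : ℕ}

theorem dvd_or (hp : p.Prime) (hσ : ∀ x, σ^[p] x = x) {m : ℕ} {z : X} (h : σ^[m] z = z) :
    p ∣ m ∨ σ z = z := by
  have h1 : minimalPeriod σ z ∣ m := IsPeriodicPt.minimalPeriod_dvd h
  have h2 : minimalPeriod σ z ∣ p := IsPeriodicPt.minimalPeriod_dvd (hσ z)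
  rcases (Nat.dvd_prime hp).1 h2 with h3 | h3
  · exact Or.inr (minimalPeriod_eq_one_iff_isFixedPt.1 h3)
  · exact Or.inl (h3 ▸ h1)

theorem iter_mul (hσ : ∀ x, σ^[p] x = x) (j : ℕ) (x : X) : σ^[p * j] x = x := by
  rw [iterate_mul]
  exact iterate_fixed (hσ x) j

/-- being in the same orbit -/
def orb (hp : 0 < p) (hσ : ∀ x, σ^[p] x = x) : Setoid X where
  r x y := ∃ j, σ^[j] x = y
  iseqv :=
    { refl := fun x => ⟨0, rfl⟩
      symm := by
        rintro x y ⟨j, rfl⟩
        refine ⟨p * j - j, ?_⟩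
        rw [← iterate_add_apply, Nat.sub_add_cancel (Nat.le_mul_of_pos_left j hp)]
        exact iter_mul hσ j x
      trans := by
        rintro x y z ⟨j, rfl⟩ ⟨j', rfl⟩
        exact ⟨j' + j, iterate_add_apply _ _ _ _⟩ }

/-- representatives of the orbits -/
theorem exists_rep (hp : 0 < p) (hσ : ∀ x, σ^[p] x = x) : ∃ ρ : X → X,
    (∀ x, ρ (σ x) = ρ x) ∧ ∀ x, ∃ j, σ^[j] (ρ x) = x := by
  refine ⟨fun x => (Quotient.mk (orb hp hσ) x).out, fun x => ?_, fun x => ?_⟩
  · have : Quotient.mk (orb hp hσ) (σ x) = Quotient.mk (orb hp hσ) x :=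
      (Quotient.sound (s := orb hp hσ) ⟨1, rfl⟩ : Quotient.mk (orb hp hσ) x = _).symm
    simp only [this]
  · exact Quotient.exact (s := orb hp hσ) (Quotient.out_eq _)

theorem fix_iter {x : X} (h : σ x = x) (j : ℕ) : σ^[j] x = x := iterate_fixed h j

/-- an iterate is fixed only if the point is -/
theorem fix_of_iter (hp : 0 < p) (hσ : ∀ x, σ^[p] x = x) {x : X} {j : ℕ}
    (h : σ (σ^[j] x) = σ^[j] x) : σ x = x := by
  have h1 : σ^[p * j - j] (σ^[j] x) = x := by
    rw [← iterate_add_apply, Nat.sub_add_cancel (Nat.le_mul_of_pos_left j hp)]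
    exact iter_mul hσ j x
  have h2 : σ^[p * j - j] (σ^[j] x) = σ^[j] x := fix_iter h _
  rw [h1] at h2
  rw [← h2] at h
  exact h

variable {F : Type} [AddCommGroup F] {f : X → F}

/-- sums over closed pieces of orbits vanish -/
theorem sum_zero (hp : p.Prime) (hσ : ∀ x, σ^[p] x = x) (h0 : ∀ x, σ x = x → f x = 0)
    (hf : ∀ x, ∑ j ∈ Finset.range p, f (σ^[j] x) = 0) {m : ℕ} {z : X} (h : σ^[m] z = z) :
    ∑ j ∈ Finset.range m, f (σ^[j] z) = 0 := by
  rcases dvd_or hp hσ h with h1 | h1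
  · obtain ⟨k, rfl⟩ := h1
    clear h
    induction k with
    | zero => simp
    | succ k ih =>
      rw [Nat.mul_succ, Finset.sum_range_add, ih, zero_add]
      have : ∀ x ∈ Finset.range p, f (σ^[p * k + x] z) = f (σ^[x] z) := by
        intro x _
        rw [Nat.add_comm, iterate_add_apply, iter_mul hσ]
      rw [Finset.sum_congr rfl this]
      exact hf z
  · refine Finset.sum_eq_zero fun j _ => ?_
    rw [fix_iter h1]
    exact h0 z h1

/-- the partial sums along an orbit are well defined -/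
theorem sum_eq (hp : p.Prime) (hσ : ∀ x, σ^[p] x = x) (h0 : ∀ x, σ x = x → f x = 0)
    (hf : ∀ x, ∑ j ∈ Finset.range p, f (σ^[j] x) = 0) {z : X} :
    ∀ {j j' : ℕ}, σ^[j] z = σ^[j'] z →
    ∑ i ∈ Finset.range j, f (σ^[i] z) = ∑ i ∈ Finset.range j', f (σ^[i] z) := by
  have key : ∀ {j m : ℕ}, σ^[j] z = σ^[j + m] z →
      ∑ i ∈ Finset.range j, f (σ^[i] z) = ∑ i ∈ Finset.range (j + m), f (σ^[i] z) := by
    intro j m h
    rw [Finset.sum_range_add]
    have h1 : σ^[m] (σ^[j] z) = σ^[j] z := by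
      rw [← iterate_add_apply, Nat.add_comm, ← h]
    have h2 := sum_zero hp hσ h0 hf h1
    have : ∀ i ∈ Finset.range m, f (σ^[j + i] z) = f (σ^[i] (σ^[j] z)) := by
      intro i _
      rw [← iterate_add_apply, Nat.add_comm]
    rw [Finset.sum_congr rfl this, h2, add_zero]
  intro j j' h
  rcases le_total j j' with h1 | h1
  · obtain ⟨m, rfl⟩ := Nat.exists_eq_add_of_le h1
    exact key h
  · obtain ⟨m, rfl⟩ := Nat.exists_eq_add_of_le h1
    exact (key h.symm).symm

theorem part1 (hp : p.Prime) (hσ : ∀ x, σ^[p] x = x) (h0 : ∀ x, σ x = x → f x = 0)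
    (hf : ∀ x, f (σ x) = f x) : ∃ g : X → F, (∀ x, σ x = x → g x = 0) ∧
      ∀ x, f x = ∑ j ∈ Finset.range p, g (σ^[j] x) := by
  classical
  obtain ⟨ρ, hρ1, hρ2⟩ := exists_rep hp.pos hσ
  have hρj : ∀ j x, ρ (σ^[j] x) = ρ x := by
    intro j x
    induction j with
    | zero => rfl
    | succ j ih => rw [iterate_succ_apply', hρ1, ih]
  have hfj : ∀ j x, f (σ^[j] x) = f x := by
    intro j x
    induction j with
    | zero => rfl
    | succ j ih => rw [iterate_succ_apply', hf, ih]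
  refine ⟨fun y => if σ y ≠ y ∧ y = ρ y then f y else 0, fun x hx => by simp [hx], fun x => ?_⟩
  by_cases hx : σ x = x
  · rw [h0 x hx]
    symm
    refine Finset.sum_eq_zero fun j _ => ?_
    rw [fix_iter hx]
    exact if_neg (by tauto)
  · -- the unique place of the representative
    obtain ⟨j0, hj0⟩ := (orb hp.pos hσ).symm' (hρ2 x : (orb hp.pos hσ).r (ρ x) x)
    set j1 := j0 % p with hj1
    have hj1p : j1 < p := Nat.mod_lt _ hp.pos
    have hj1x : σ^[j1] x = ρ x := by
      rw [← hj0]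
      conv_rhs => rw [← Nat.mod_add_div j0 p, iterate_add_apply, iter_mul hσ]
    rw [Finset.sum_eq_single_of_mem j1 (Finset.mem_range.2 hj1p)]
    · have hne : σ (σ^[j1] x) ≠ σ^[j1] x := fun h => hx (fix_of_iter hp.pos hσ h)
      have h2 : σ^[j1] x = ρ (σ^[j1] x) := by rw [hρj, hj1x]
      exact ((if_pos ⟨hne, h2⟩).trans (hfj j1 x)).symm
    · intro j hj hne
      refine if_neg ?_
      rintro ⟨_, h2⟩
      rw [hρj, ← hj1x] at h2
      have hj' := Finset.mem_range.1 hj
      have key : ∀ a b : ℕ, a < b → b < p → σ^[a] x = σ^[b] x → False := by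
        intro a b hab hb h
        have h1 : σ^[b - a] (σ^[a] x) = σ^[a] x := by
          rw [← iterate_add_apply, Nat.sub_add_cancel hab.le, h]
        rcases dvd_or hp hσ h1 with h3 | h3
        · exact absurd (Nat.le_of_dvd (by omega) h3) (by omega)
        · exact hx (fix_of_iter hp.pos hσ h3)
      rcases lt_or_gt_of_ne hne with h3 | h3
      · exact key j j1 h3 hj1p h2
      · exact key j1 j h3 hj' h2.symm

theorem part2 (hp : p.Prime) (hσ : ∀ x, σ^[p] x = x) (h0 : ∀ x, σ x = x → f x = 0)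
    (hf : ∀ x, ∑ j ∈ Finset.range p, f (σ^[j] x) = 0) : ∃ g : X → F,
      (∀ x, σ x = x → g x = 0) ∧ ∀ x, f x = g (σ x) - g x := by
  classical
  obtain ⟨ρ, hρ1, hρ2⟩ := exists_rep hp.pos hσ
  choose J hJ using hρ2
  refine ⟨fun y => ∑ i ∈ Finset.range (J y), f (σ^[i] (ρ y)), fun x hx => ?_, fun x => ?_⟩
  · have h1 : σ (ρ x) = ρ x := by
      have h2 := hJ x
      rw [← h2] at hx
      exact fix_of_iter hp.pos hσ hx
    refine Finset.sum_eq_zero fun i _ => ?_
    rw [fix_iter h1]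
    exact h0 _ h1
  · have h1 : σ^[J (σ x)] (ρ x) = σ^[J x + 1] (ρ x) := by
      have h2 := hJ (σ x)
      rw [hρ1] at h2
      rw [h2, iterate_succ_apply', hJ x]
    have h3 := sum_eq hp hσ h0 hf h1
    simp only [hρ1]
    rw [h3, Finset.sum_range_succ, hJ x]
    abel

end

end Pool.CS.SMF94

namespace Pool.CS

theorem smf_thm : Stmt_SMF := fun _ _ _ hp hσ _ _ _ h0 =>
  ⟨fun hf => SMF94.part1 hp hσ h0 hf, fun hf => SMF94.part2 hp hσ h0 hf⟩

end Pool.CS
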