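import Pool.Agent.Work.MP_64ea0f_cs.InterfaceB
import Pool.Agent.Work.MP_64ea0f_cs_helper91.FAC

set_option autoImplicit false

/-! # Block AFB (helper94): compactness for the affine-free condition -/

namespace Pool.CS.H94

open Pool.CS.H91 Filter Topology

variable {D : Rd}

theorem continuous_B (w : D.V) : Continuous fun v : D.V => D.B v w := by
  unfold Rd.B bform
  fun_prop

theorem continuous_Bq : Continuous fun v : D.V => D.B v v := by
  unfold Rd.B bform
  fun_prop

theorem afb (hAF : D.AF) (C : ℝ) : ∃ R : ℝ, ∀ F : D.V, (∀ s, 0 ≤ F s) →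
    (∀ s, D.B F (D.e s) ≤ 1) → -C ≤ D.B F F → D.ht F ≤ R := by
  by_contra hne
  push Not at hne
  choose F hF0 hF1 hF2 hF3 using fun n : ℕ => hne ((n : ℝ) + 1)
  have hpos : ∀ n, 0 < D.ht (F n) := fun n => lt_trans (by positivity) (hF3 n)
  set G : ℕ → D.V := fun n => (D.ht (F n))⁻¹ • F n with hG
  have hGs : ∀ n, G n ∈ stdSimplex ℝ D.S := by
    intro n
    refine ⟨fun s => ?_, ?_⟩
    · rw [hG]
      simp only [Pi.smul_apply, smul_eq_mul]
      exact mul_nonneg (inv_nonneg.2 (hpos n).le) (hF0 n s)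
    · have : D.ht (G n) = 1 := by
        rw [hG]
        simp only
        rw [ht_smul, inv_mul_cancel₀ (hpos n).ne']
      exact this
  obtain ⟨g, hg, φ, hφ, hlim⟩ := (isCompact_stdSimplex ℝ D.S).tendsto_subseq hGs
  have hinv : Tendsto (fun n => (D.ht (F (φ n)))⁻¹) atTop (𝓝 0) := by
    refine Tendsto.inv_tendsto_atTop ?_
    refine tendsto_atTop_mono (fun n => (hF3 (φ n)).le) ?_
    exact tendsto_atTop_add_const_right _ _ (tendsto_natCast_atTop_atTop.comp hφ.tendsto_atTop)
  have h1 : ∀ s, D.B g (D.e s) ≤ 0 := by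
    intro s
    have hl : Tendsto (fun n => D.B (G (φ n)) (D.e s)) atTop (𝓝 (D.B g (D.e s))) :=
      ((continuous_B (D.e s)).tendsto g).comp hlim
    refine le_of_tendsto_of_tendsto hl hinv (Eventually.of_forall fun n => ?_)
    simp only [hG]
    rw [B_smul_left]
    have := mul_le_mul_of_nonneg_left (hF1 (φ n) s) (inv_nonneg.2 (hpos (φ n)).le)
    rwa [mul_one] at this
  have h2 : 0 ≤ D.B g g := by
    have hl : Tendsto (fun n => D.B (G (φ n)) (G (φ n))) atTop (𝓝 (D.B g g)) :=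
      (continuous_Bq.tendsto g).comp hlim
    have hl2 : Tendsto (fun n => (D.ht (F (φ n)))⁻¹ * ((D.ht (F (φ n)))⁻¹ * -C)) atTop
        (𝓝 (0 * (0 * -C))) := hinv.mul (hinv.mul_const _)
    rw [zero_mul] at hl2
    refine le_of_tendsto_of_tendsto hl2 hl (Eventually.of_forall fun n => ?_)
    simp only [hG]
    rw [B_smul_left, B_smul_right]
    exact mul_le_mul_of_nonneg_left (mul_le_mul_of_nonneg_left (hF2 (φ n))
      (inv_nonneg.2 (hpos (φ n)).le)) (inv_nonneg.2 (hpos (φ n)).le)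
  have h3 : D.B g g ≤ 0 := by
    rw [B_expand g g]
    exact Finset.sum_nonpos fun s _ => mul_nonpos_of_nonneg_of_nonpos (hg.1 s) (h1 s)
  have h4 : g = 0 := hAF g ⟨hg.1, h1⟩ (le_antisymm h3 h2)
  have h5 := hg.2
  rw [h4] at h5
  simp at h5

end Pool.CS.H94

namespace Pool.CS

theorem afb_thm : Stmt_AFB := fun _ hAF C => H94.afb hAF C

end Pool.CS
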