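import Pool.Agent.Work.MP_64ea0f_cs.InterfaceG4
import Pool.Agent.Work.MP_64ea0f_cs_helper63.KCZ

set_option autoImplicit false

/-! # Block KCY (helper94), adapted from KCZ of helper63 -/

namespace Pool.CS

open Classical in
theorem kcy_thm : Stmt_BAS → Stmt_CSU → Stmt_CMP → Stmt_PFF → Stmt_FPR → Stmt_KCY := by
  intro hB hCSU hCMP hPFF hFPR D u hu hconn huu μ1 hμ1 μ2 hμ2 h1 h2 h12
  obtain ⟨hsym, _, _, _, _, hB1, _⟩ := hB D
  obtain ⟨hu0, hue⟩ := hu
  obtain ⟨S0, hS0⟩ : ∃ S0 : Set D.S, S0 = {s | u s ≠ 0} := ⟨_, rfl⟩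
  rw [← hS0]
  obtain ⟨Z, hZ⟩ : ∃ Z : Set D.S, Z = {s | D.B u (D.e s) = 0} := ⟨_, rfl⟩
  -- supports
  have hsup : ∀ μ ∈ D.Ps, D.B u μ = 0 → D.In Z μ := by
    intro μ hμ h s hs
    rw [D.B_expand] at h
    have h3 : ∀ t ∈ Finset.univ, μ t * D.B u (D.e t) ≤ 0 := fun t _ =>
      mul_nonpos_of_nonneg_of_nonpos (hμ.2 t) (hue t)
    have h4 := (Finset.sum_eq_zero_iff_of_nonpos h3).mp h s (Finset.mem_univ s)
    rcases mul_eq_zero.mp h4 with h5 | h5
    · exact h5
    · exact absurd (by rw [hZ]; exact h5) hs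
  have hperp : ∀ s ∈ Z, u s = 0 → s ∈ D.perp S0 := by
    intro s hs hus t ht
    rw [hZ] at hs
    have hs' : D.B u (D.e s) = 0 := hs
    rw [D.B_e] at hs'
    have h3 : ∀ r ∈ Finset.univ, u r * D.k r s ≤ 0 := by
      intro r _
      by_cases hrs : r = s
      · rw [hrs, hus, zero_mul]
      · exact mul_nonpos_of_nonneg_of_nonpos (hu0 r) (D.off r s hrs)
    have h4 := (Finset.sum_eq_zero_iff_of_nonpos h3).mp hs' t (Finset.mem_univ t)
    rw [hS0] at ht
    rw [D.symm s t]
    exact (mul_eq_zero.mp h4).resolve_left ht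
  obtain ⟨J1, hJ1⟩ : ∃ J1 : Set D.S, J1 = S0 ∩ Z := ⟨_, rfl⟩
  have hJ1p : ∀ s ∈ J1, ∀ t ∈ D.perp S0, D.k s t = 0 := by
    intro s hs t ht
    rw [hJ1] at hs
    rw [D.symm]
    exact ht s hs.1
  have hor : ∀ μ ∈ D.Ps, D.B u μ = 0 → D.In J1 μ ∨ D.In (D.perp S0) μ := by
    intro μ hμ h
    apply hCSU D J1 (D.perp S0) hJ1p μ hμ.1
    intro s hs
    apply hsup μ hμ h s
    intro hsZ
    apply hs
    by_cases hus : u s = 0
    · exact Or.inr (hperp s hsZ hus)
    · left
      rw [hJ1, hS0]
      exact ⟨hus, hsZ⟩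
  have hne : D.B μ1 μ2 ≠ 0 := by linarith
  rcases hor μ1 hμ1 h1 with a1 | a1 <;> rcases hor μ2 hμ2 h2 with a2 | a2
  · exfalso
    -- a component of `J1`
    have hμ1n : ∃ s0, μ1 s0 ≠ 0 := by
      by_contra hcon
      push Not at hcon
      have h3 : μ1 = 0 := funext hcon
      rw [h3, D.B_expand] at hne
      apply hne
      rw [Finset.sum_eq_zero]
      intro t _
      rw [D.B_e]
      simp
    obtain ⟨s0, hs0⟩ := hμ1n
    have hs0J : s0 ∈ J1 := by
      by_contra h
      exact hs0 (a1 s0 h)
    obtain ⟨K, hKJ, hs0K, hKc, hKs⟩ := hCMP D J1 s0 hs0J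
    have hKu : K ∪ J1 \ K = J1 := Set.union_sdiff_cancel hKJ
    have b1 : D.In K μ1 := by
      rcases hCSU D K (J1 \ K) hKs μ1 hμ1.1 (by rw [hKu]; exact a1) with h | h
      · exact h
      · exact absurd (h s0 (fun h' => h'.2 hs0K)) hs0
    have b2 : D.In K μ2 := by
      rcases hCSU D K (J1 \ K) hKs μ2 hμ2.1 (by rw [hKu]; exact a2) with h | h
      · exact h
      · exact absurd (D.B_zero_of_In hKs b1 h) hne
    -- restriction of `u`
    let u' : D.V := fun s => if s ∈ K then u s else 0
    have hu'0 : ∀ s, 0 ≤ u' s := by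
      intro s
      by_cases h : s ∈ K
      · change 0 ≤ if s ∈ K then u s else 0
        rw [if_pos h]; exact hu0 s
      · change 0 ≤ if s ∈ K then u s else 0
        rw [if_neg h]
    have hu'K : D.In K u' := by
      intro s hs
      exact if_neg hs
    have hu't : ∀ t ∈ K, 0 ≤ D.B u' (D.e t) := by
      intro t ht
      have h3 : D.B u (D.e t) = 0 := by
        have := hKJ ht
        rw [hJ1, hZ] at this
        exact this.2
      rw [D.B_e] at h3 ⊢
      rw [← h3]
      apply Finset.sum_le_sum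
      intro r _
      by_cases hr : r ∈ K
      · change u r * D.k r t ≤ (if r ∈ K then u r else 0) * D.k r t
        rw [if_pos hr]
      · change u r * D.k r t ≤ (if r ∈ K then u r else 0) * D.k r t
        rw [if_neg hr, zero_mul]
        exact mul_nonpos_of_nonneg_of_nonpos (hu0 r) (D.off r t (by rintro rfl; exact hr ht))
    by_cases hpos : ∃ t ∈ K, 0 < D.B u' (D.e t)
    · have hfin := hPFF D K hKc ⟨u', hu'0, hu'K, hu't, hpos⟩
      have h3 := (hFPR D K hfin).2 μ1 hμ1.1 μ2 hμ2.1 b1 b2 (by
        rintro rfl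
        have := hB1 _ hμ1.1
        linarith) (by
        intro h
        apply hs0
        have e1 := hμ1.2 s0
        have e2 := hμ2.2 s0
        rw [h, Pi.neg_apply] at e2
        linarith)
      rw [abs_lt] at h3
      linarith [h3.1]
    · push Not at hpos
      have hz : ∀ t ∈ K, D.B u' (D.e t) = 0 := fun t ht => le_antisymm (hpos t ht) (hu't t ht)
      -- the component is everything
      have hKZ : ∀ t ∈ K, D.B u (D.e t) = 0 := by
        intro t ht
        have := hKJ ht
        rw [hJ1, hZ] at this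
        exact this.2
      have hKS : K ⊆ S0 := by
        intro t ht
        have := hKJ ht
        rw [hJ1] at this
        exact this.1
      have hsep : ∀ t ∈ K, ∀ r ∈ S0 \ K, D.k t r = 0 := by
        intro t ht r hr
        have h3 := hKZ t ht
        have h4 := hz t ht
        rw [D.B_e] at h3 h4
        have h5 : ∑ r, (u r - u' r) * D.k r t = 0 := by
          simp only [sub_mul, Finset.sum_sub_distrib]
          rw [h3, h4, sub_zero]
        have h6 : ∀ r ∈ Finset.univ, (u r - u' r) * D.k r t ≤ 0 := by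
          intro r _
          by_cases hr : r ∈ K
          · have : u' r = u r := if_pos hr
            rw [this, sub_self, zero_mul]
          · have : u' r = 0 := if_neg hr
            rw [this, sub_zero]
            exact mul_nonpos_of_nonneg_of_nonpos (hu0 r) (D.off r t (by rintro rfl; exact hr ht))
        have h7 := (Finset.sum_eq_zero_iff_of_nonpos h6).mp h5 r (Finset.mem_univ r)
        have h8 : u' r = 0 := if_neg hr.2
        rw [h8, sub_zero] at h7
        have h9 : u r ≠ 0 := by
          have := hr.1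
          rw [hS0] at this
          exact this
        rw [D.symm t r]
        exact (mul_eq_zero.mp h7).resolve_left h9
      have hKeq : K = S0 := by
        rw [hS0] at hKS hsep ⊢
        exact hconn K hKS ⟨s0, hs0K⟩ hsep
      apply huu
      rw [D.B_expand]
      apply Finset.sum_eq_zero
      intro t _
      by_cases ht : t ∈ K
      · rw [hKZ t ht, mul_zero]
      · have : u t = 0 := by
          by_contra h
          apply ht
          rw [hKeq, hS0]
          exact h
        rw [this, zero_mul]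
  · exact absurd (D.B_zero_of_In hJ1p a1 a2) hne
  · rw [hsym] at hne
    exact absurd (D.B_zero_of_In hJ1p a2 a1) hne
  · exact ⟨a1, a2⟩

end Pool.CS
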