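import Pool.Agent.Work.MP_64ea0f_cs_helper94.AFB

set_option autoImplicit false

/-! # Block LFN (helper94): every vertex has finitely many minimal roots -/

namespace Pool.CS.H94

open Pool.CS.H91

variable {D : Rd}

/-- the case in which all simple roots belong to the vertex -/
theorem lfn_pos (hHGT : Stmt_HGT) (hNST : Stmt_NST) (hAF : D.AF) {x : Set D.V} (hx : D.Vx x)
    (he : ∀ s, D.e s ∈ x) : {φ | D.Mn x φ}.Finite := by
  obtain ⟨R, hR⟩ := afb hAF 0
  refine (hx.fin.union (hHGT D R)).subset ?_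
  intro φ hφ
  by_cases hps : φ ∈ D.Ps
  · refine Or.inr ⟨hps, hR φ hps.2 (fun s => ?_) (by rw [B_rt hps.1]; norm_num)⟩
    by_contra hlt
    rw [not_le] at hlt
    have hne : φ ≠ D.e s := by
      rintro rfl
      rw [B_e_self] at hlt
      exact lt_irrefl _ hlt
    rcases (hNST D φ hps.1 (D.e s) (rt_e s)).2.1 hlt.le with h | h
    · have h1 : D.On (D.σ s) φ := by
        rw [on_iff, σ_inv]
        exact ps_σ hps hne
      have h2 := h _ h1
      rw [on_iff, σ_inv, ρ_σ_e] at h2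
      exact ps_not_neg (ps_e s) h2
    · exact hne (hφ.2 _ (he s) h).symm
  · exact Or.inl ⟨hφ.1, hps⟩

theorem lfn (hHGT : Stmt_HGT) (hNST : Stmt_NST) (hVX1 : Stmt_VX1) (hAF : D.AF) :
    ∀ (n : ℕ) (x : Set D.V), D.Vx x → (x \ D.Ps).ncard = n → {φ | D.Mn x φ}.Finite := by
  intro n
  induction n using Nat.strong_induction_on with
  | _ n ih =>
  intro x hx hn
  by_cases he : ∀ s, D.e s ∈ x
  · exact lfn_pos hHGT hNST hAF hx he
  · push Not at he
    obtain ⟨s, hs⟩ := he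
    have hs' : -D.e s ∈ x := (hx.tot _ (rt_e s)).resolve_left hs
    have hs2 : -D.e s ∈ x \ D.Ps := ⟨hs', ps_not_neg (ps_e s)⟩
    obtain ⟨-, hact, -, -, -, -, hMn, -⟩ := hVX1 D
    have hy := hact x hx (D.σ s)
    have hsub : D.act (D.σ s) x \ D.Ps ⊆ D.ρ (D.σ s) '' ((x \ D.Ps) \ {-D.e s}) := by
      rintro _ ⟨⟨φ, hφ, rfl⟩, hnp⟩
      refine ⟨φ, ⟨⟨hφ, fun hps => hnp (ps_σ hps ?_)⟩, ?_⟩, rfl⟩
      · rintro rfl
        exact hs hφ
      · rintro hφ2
        rw [Set.mem_singleton_iff] at hφ2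
        rw [hφ2, map_neg, ρ_σ_e, neg_neg] at hnp
        exact hnp (ps_e s)
    have hfin : ((x \ D.Ps) \ {-D.e s}).Finite := hx.fin.subset Set.sdiff_subset
    have hlt : (D.act (D.σ s) x \ D.Ps).ncard < n := by
      calc (D.act (D.σ s) x \ D.Ps).ncard
          ≤ (D.ρ (D.σ s) '' ((x \ D.Ps) \ {-D.e s})).ncard :=
            Set.ncard_le_ncard hsub (hfin.image _)
        _ ≤ ((x \ D.Ps) \ {-D.e s}).ncard := Set.ncard_image_le hfin
        _ < (x \ D.Ps).ncard := Set.ncard_sdiff_singleton_lt_of_mem hs2 hx.fin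
        _ = n := hn
    have h1 := ih _ hlt _ hy rfl
    have h2 : {φ | D.Mn x φ} = D.ρ (D.σ s) ⁻¹' {φ | D.Mn (D.act (D.σ s) x) φ} := by
      ext φ
      exact hMn x hx (D.σ s) φ
    rw [h2]
    exact h1.preimage ((ρ_inj (D.σ s)).injOn)

end Pool.CS.H94

namespace Pool.CS

theorem lfn_thm : Stmt_HGT → Stmt_NST → Stmt_VX1 → Stmt_LFN :=
  fun hHGT hNST hVX1 _ hAF x hx => H94.lfn hHGT hNST hVX1 hAF _ x hx rfl

end Pool.CS
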