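import Pool.Agent.Work.MP_64ea0f_cs.InterfaceG1
import Pool.Agent.Work.MP_64ea0f_cs_helper63.KCZ

set_option autoImplicit false

/-! # Block ORD (helper94): two affine vectors -/

namespace Pool.CS.ORD94

open Pool.CS

variable {D : Rd}

theorem map_expand (w : D.W) (v : D.V) : D.ρ w v = ∑ s, v s • D.ρ w (D.e s) := by
  have h : v = ∑ s, v s • D.e s := by
    funext t
    rw [Finset.sum_apply, Finset.sum_eq_single t]
    · simp [Rd.e]
    · intro s _ hs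
      simp [Rd.e, hs.symm]
    · intro h; exact absurd (Finset.mem_univ t) h
  conv_lhs => rw [h]
  rw [map_sum]
  exact Finset.sum_congr rfl fun s _ => by rw [map_smul]

theorem in_map {J K : Set D.S} {w : D.W} (h : ∀ s ∈ K, D.In J (D.ρ w (D.e s))) {v : D.V}
    (hv : D.In K v) : D.In J (D.ρ w v) := by
  intro t ht
  rw [map_expand, Finset.sum_apply]
  refine Finset.sum_eq_zero fun s _ => ?_
  rw [Pi.smul_apply, smul_eq_mul]
  by_cases hs : s ∈ K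
  · rw [h s hs t ht, mul_zero]
  · rw [hv s hs, zero_mul]

theorem inv_map (w : D.W) (v : D.V) : D.ρ w⁻¹ (D.ρ w v) = v := by
  have h : D.ρ w⁻¹ * D.ρ w = 1 := by rw [← map_mul, inv_mul_cancel, map_one]
  exact LinearMap.congr_fun h v

theorem map_inv (w : D.W) (v : D.V) : D.ρ w (D.ρ w⁻¹ v) = v := by
  have h : D.ρ w * D.ρ w⁻¹ = 1 := by rw [← map_mul, mul_inv_cancel, map_one]
  exact LinearMap.congr_fun h v

theorem fd_act (hBAS : Stmt_BAS) (g : D.W) {δ φ : D.V} (h : φ ∈ D.Fd δ) :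
    D.ρ g φ ∈ D.Fd (D.ρ g δ) := by
  obtain ⟨-, -, -, -, -, -, -, hRt, -⟩ := hBAS D
  obtain ⟨h1, t, ht, h2⟩ := h
  refine ⟨hRt _ h1 g, t, ht, ?_⟩
  rw [← map_smul, ← map_add]
  exact hRt _ h2 g

theorem B_add_smul (hBAS : Stmt_BAS) (u φ δ : D.V) (t : ℝ) :
    D.B u (φ + t • δ) = D.B u φ + t * D.B u δ := by
  obtain ⟨hsym, hlin, -⟩ := hBAS D
  rw [hsym u (φ + t • δ)]
  have := hlin 1 t φ δ u
  rw [one_smul, one_mul] at this
  rw [this, hsym φ u, hsym δ u]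

theorem B_smul (hBAS : Stmt_BAS) (u v : D.V) (t : ℝ) : D.B (t • u) v = t * D.B u v := by
  obtain ⟨-, hlin, -⟩ := hBAS D
  have := hlin t 0 u 0 v
  rwa [zero_smul, add_zero, zero_mul, add_zero] at this

theorem sa_ne {u : D.V} (hu : D.Sa u) : u ≠ 0 := by
  rintro rfl
  have h := hu.2.2.1
  simp [Rd.ht] at h

theorem exists_pos {u : D.V} (hu : D.Sa u) : ∃ s, 0 < u s := by
  by_contra h
  push Not at h
  have h1 : D.ht u ≤ 0 := Finset.sum_nonpos fun s _ => h s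
  linarith [hu.2.2.1]

/-- the core case -/
theorem core (hBAS : Stmt_BAS) (hSGN : Stmt_SGN) (hIMC : Stmt_IMC) (hPSD : Stmt_PSD)
    (hSAV : Stmt_SAV) (hLIN : Stmt_LIN) (hTHR : Stmt_THR) {u u1 : D.V} (hu : D.Sa u)
    (hu1 : D.Sa u1) (w : D.W) :
    D.B u (D.ρ w u1) ≤ 0 ∧ (D.B u (D.ρ w u1) = 0 → D.ρ w u1 ≠ u → ∀ φ ∈ D.Fd (D.ρ w u1),
      φ ∉ D.Fd u ∧ D.B φ u = 0 ∧ ∀ ψ ∈ D.Fd u, D.B φ ψ = 0) := by
  obtain ⟨hsym, hlin, hee, -, hinv, hone, heRt, hRt, -⟩ := hBAS D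
  obtain ⟨hsgn, -, h0, -⟩ := hSGN D
  obtain ⟨-, himc2, himc3⟩ := hIMC D
  obtain ⟨sav1, -, sav3, sav4, -⟩ := (hSAV D).1 u hu
  set δ := D.ρ w u1 with hδ
  have hge : ∀ s, u1 s ≤ δ s := fun s => himc2 u1 hu1.1 w s
  have hδ0 : ∀ s, 0 ≤ δ s := fun s => (hu1.1.1 s).trans (hge s)
  obtain ⟨s0, hs0⟩ := exists_pos hu1
  have hδs0 : 0 < δ s0 := lt_of_lt_of_le hs0 (hge s0)
  have hAf : D.Af δ := ⟨w, u1, hu1, rfl⟩
  constructor
  · rw [D.B_expand]
    exact Finset.sum_nonpos fun s _ => mul_nonpos_of_nonneg_of_nonpos (hδ0 s) (hu.1.2 s)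
  intro hB hne
  -- all roots of `Fd δ` are orthogonal to `u`
  have hle : ∀ φ ∈ D.Fd δ, D.B u φ ≤ 0 := by
    intro φ hφ
    obtain ⟨hc, ht, -⟩ := hTHR D δ hAf φ hφ
    obtain ⟨n, hn⟩ := exists_nat_gt (-φ s0 / (D.cst δ φ * δ s0))
    have hcd : 0 < D.cst δ φ * δ s0 := mul_pos hc hδs0
    have h1 : φ + ((n : ℤ) * D.cst δ φ : ℝ) • δ ∈ D.Rt := (ht _).2 ⟨n, rfl⟩
    have h2 : 0 < (φ + ((n : ℤ) * D.cst δ φ : ℝ) • δ) s0 := by
      rw [Pi.add_apply, Pi.smul_apply, smul_eq_mul]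
      rw [div_lt_iff₀ hcd] at hn
      push_cast
      nlinarith
    have h3 : φ + ((n : ℤ) * D.cst δ φ : ℝ) • δ ∈ D.Ps := by
      rcases hsgn _ h1 with h | h
      · exact h
      · have h4 := h.2 s0
        rw [Pi.neg_apply] at h4
        linarith
    have h4 := sav1 _ h3
    rw [B_add_smul hBAS, hB, mul_zero, add_zero] at h4
    exact h4
  have horth : ∀ φ ∈ D.Fd δ, D.B u φ = 0 := by
    intro φ hφ
    have h1 := hle φ hφ
    have h2 := hle (-φ) (hTHR D δ hAf φ hφ).2.2.2.1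
    have h3 : D.B u (-φ) = - D.B u φ := by
      have := B_smul hBAS φ u (-1)
      rw [neg_one_smul, neg_one_mul] at this
      rw [hsym u, this, hsym φ]
    linarith
  have hsupp : ∀ φ ∈ D.Fd δ, D.In (D.sp u) φ ∨ D.In (D.perp (D.sp u)) φ :=
    fun φ hφ => sav3 φ hφ.1 (horth φ hφ)
  have hes : ∀ s ∈ D.sp u1, D.ρ w (D.e s) ∈ D.Fd δ := by
    intro s hs
    refine fd_act hBAS w (((hLIN D u1 hu1).2 _).2 ⟨heRt s, ?_⟩)
    intro t ht
    have : t ≠ s := by rintro rfl; exact ht hs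
    simp [Rd.e, this]
  have hInu : D.In (D.sp u) u := fun s hs => by
    by_contra h
    exact hs h
  have hInu1 : D.In (D.sp u1) u1 := fun s hs => by
    by_contra h
    exact hs h
  by_cases hK : ∃ s ∈ D.sp u1, D.In (D.sp u) (D.ρ w (D.e s))
  · -- `δ` is supported in `sp u`
    exfalso
    obtain ⟨s1, hs1, hs1'⟩ := hK
    have hall : {s | s ∈ D.sp u1 ∧ D.In (D.sp u) (D.ρ w (D.e s))} = D.sp u1 := by
      refine hu1.2.2.2 _ (fun s hs => hs.1) ⟨s1, hs1, hs1'⟩ ?_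
      intro s hs t ht
      have h1 : D.In (D.perp (D.sp u)) (D.ρ w (D.e t)) := by
        rcases hsupp _ (hes t ht.1) with h | h
        · exact absurd ⟨ht.1, h⟩ ht.2
        · exact h
      have h2 := sav4 _ h1 _ hs.2
      rwa [hinv, hee] at h2
    have h1 : D.In (D.sp u) δ := by
      refine in_map (K := D.sp u1) ?_ hInu1
      intro s hs
      rw [← hall] at hs
      exact hs.2
    have h2 : D.B δ δ = 0 := by rw [hδ, hinv]; exact hu1.2.1
    obtain ⟨t, ht⟩ := ((hPSD D u hu.1 hu.2.1 hu.2.2.2 (sa_ne hu)).2.2.1 δ h1).2 h2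
    have ht0 : 0 < t := by
      rw [ht, Pi.smul_apply, smul_eq_mul] at hδs0
      by_contra h
      push Not at h
      have := mul_nonpos_of_nonpos_of_nonneg h (hu.1.1 s0)
      linarith
    have h3 : δ ∈ D.Kc := by
      rw [ht]
      refine ⟨fun s => ?_, fun s => ?_⟩
      · rw [Pi.smul_apply, smul_eq_mul]
        exact mul_nonneg ht0.le (hu.1.1 s)
      · rw [B_smul hBAS]
        exact mul_nonpos_of_nonneg_of_nonpos ht0.le (hu.1.2 s)
    have h4 := (himc3 u1 hu1.1 w h3).1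
    have h5 : D.ht δ = t * D.ht u := by
      rw [ht]
      unfold Rd.ht
      rw [Finset.mul_sum]
      rfl
    rw [hδ, h4, hu1.2.2.1, hu.2.2.1, mul_one] at h5
    apply hne
    rw [ht, ← h5, one_smul]
  · -- everything is supported in the orthogonal complement
    push Not at hK
    have hall : ∀ s ∈ D.sp u1, D.In (D.perp (D.sp u)) (D.ρ w (D.e s)) := fun s hs =>
      (hsupp _ (hes s hs)).resolve_left (hK s hs)
    intro φ hφ
    have h1 : D.ρ w⁻¹ φ ∈ D.Fd u1 := by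
      have := fd_act hBAS w⁻¹ hφ
      rwa [hδ, inv_map] at this
    have h2 := ((hLIN D u1 hu1).2 _).1 h1
    have h3 : D.In (D.perp (D.sp u)) φ := by
      have := in_map (K := D.sp u1) hall h2.2
      rwa [map_inv] at this
    refine ⟨?_, ?_, ?_⟩
    · intro h4
      have h5 := (((hLIN D u hu).2 _).1 h4).2
      apply h0
      have h6 : φ = 0 := by
        funext s
        by_cases hs : s ∈ D.sp u
        · apply h3
          intro hs'
          have := hs' s hs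
          rw [D.diag] at this
          exact one_ne_zero this
        · exact h5 s hs
      rw [← h6]
      exact hφ.1
    · rw [hsym]
      exact sav4 φ h3 u hInu
    · intro ψ hψ
      rw [hsym]
      exact sav4 φ h3 ψ (((hLIN D u hu).2 _).1 hψ).2

end Pool.CS.ORD94

namespace Pool.CS

open ORD94 in
theorem ord_thm : Stmt_BAS → Stmt_SGN → Stmt_IMC → Stmt_PSD → Stmt_SAV → Stmt_LIN → Stmt_THR →
    Stmt_ORD := by
  intro hBAS hSGN hIMC hPSD hSAV hLIN hTHR D δ δ' hδ hδ'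
  obtain ⟨g1, u1, hu1, rfl⟩ := hδ
  obtain ⟨g, u, hu, rfl⟩ := hδ'
  obtain ⟨hsym, -, -, -, hinv, -⟩ := hBAS D
  have hcomp : D.ρ g⁻¹ (D.ρ g1 u1) = D.ρ (g⁻¹ * g1) u1 := by
    rw [map_mul]; rfl
  have hB : D.B (D.ρ g1 u1) (D.ρ g u) = D.B u (D.ρ (g⁻¹ * g1) u1) := by
    rw [← hinv g⁻¹, hcomp, inv_map, hsym]
  obtain ⟨h1, h2⟩ := core hBAS hSGN hIMC hPSD hSAV hLIN hTHR hu hu1 (g⁻¹ * g1)
  rw [hB]
  refine ⟨h1, fun h3 h4 φ hφ => ?_⟩
  have h5 : D.ρ (g⁻¹ * g1) u1 ≠ u := by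
    intro h
    apply h4
    rw [← h, ← hcomp, map_inv]
  have h6 : D.ρ g⁻¹ φ ∈ D.Fd (D.ρ (g⁻¹ * g1) u1) := by
    rw [← hcomp]
    exact fd_act hBAS g⁻¹ hφ
  obtain ⟨h7, h8, h9⟩ := h2 h3 h5 _ h6
  refine ⟨fun h => h7 ?_, ?_, fun ψ hψ => ?_⟩
  · have := fd_act hBAS g⁻¹ h
    rwa [inv_map] at this
  · rw [← hinv g⁻¹, inv_map]
    exact h8
  · rw [← hinv g⁻¹]
    apply h9
    have := fd_act hBAS g⁻¹ hψ
    rwa [inv_map] at this

end Pool.CS
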