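import Pool.Agent.Work.MP_64ea0f_cs.InterfaceG2b

set_option autoImplicit false

/-! # Block RAT (helper94): rational and real combinations -/

namespace Pool.CS.RAT94

theorem exists_g (c : ℝ) (hc : c ≠ 0) : ∃ g : ℝ →ₗ[ℚ] ℚ, g c = 1 := by
  obtain ⟨g, hg⟩ := LinearMap.exists_leftInverse_of_injective (LinearMap.toSpanSingleton ℚ ℝ c)
    (LinearMap.ker_eq_bot.2 (by
      intro a b hab
      simp only [LinearMap.toSpanSingleton_apply] at hab
      have h1 : (a : ℝ) * c = (b : ℝ) * c := by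
        rw [← Rat.smul_def, ← Rat.smul_def]; exact hab
      exact_mod_cast mul_right_cancel₀ hc h1))
  refine ⟨g, ?_⟩
  have h := LinearMap.congr_fun hg 1
  simpa using h

theorem g_mul (g : ℝ →ₗ[ℚ] ℚ) (x : ℝ) (q : ℚ) : g (x * (q : ℝ)) = g x * q := by
  have h : x * (q : ℝ) = q • x := by rw [Rat.smul_def, mul_comm]
  rw [h, map_smul, smul_eq_mul, mul_comm]

theorem rat_thm : Stmt_RAT := by
  intro A I _ _ ℓ R0
  constructor
  · intro ν hν r hr
    by_contra hne
    obtain ⟨g, hg⟩ := exists_g _ hne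
    have h1 : ∀ α, g (∑ i, r i * (ℓ i α : ℝ)) = ∑ i, g (r i) * ℓ i α := by
      intro α
      rw [map_sum]
      exact Finset.sum_congr rfl fun i _ => g_mul g _ _
    have h2 := hν (fun i => g (r i)) (by
      intro ρ hρ
      rw [← h1, hr ρ hρ, map_zero])
    have h3 : g (∑ α, (ν α : ℝ) * ∑ i, r i * (ℓ i α : ℝ)) = ∑ α, ν α * ∑ i, g (r i) * ℓ i α := by
      rw [map_sum]
      refine Finset.sum_congr rfl fun α _ => ?_
      rw [mul_comm, g_mul, h1, mul_comm]
    rw [h3, h2] at hg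
    exact zero_ne_one hg
  · intro d hd
    obtain ⟨r, hr⟩ := hd
    obtain ⟨g, hg⟩ := exists_g 1 one_ne_zero
    refine ⟨fun i => g (r i), fun ρ hρ => ?_⟩
    have h1 : g (d ρ : ℝ) = d ρ := by
      have := g_mul g 1 (d ρ)
      rw [one_mul, hg, one_mul] at this
      exact this
    rw [← h1, hr ρ hρ, map_sum]
    exact Finset.sum_congr rfl fun i _ => g_mul g _ _

end Pool.CS.RAT94
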