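import Pool.Agent.Work.MP_64ea0f_cs.InterfaceG3

set_option autoImplicit false

/-! # Block UNQ (helper94): uniqueness of the near representative -/

namespace Pool.CS.UNQ94

variable {D : Rd}

/-- the bounds at the threshold -/
theorem thr_bound (hTHR : Stmt_THR) {δ : D.V} (hδ : D.Af δ) {x : Set D.V} (hx : D.Vx x) {C : ℝ}
    {f : D.V →ₗ[ℝ] ℝ} (hf1 : f δ = 1) (hfx : ∀ φ ∈ x, φ ∈ D.Fd δ → -C ≤ f φ) {α : D.V}
    (hα : α ∈ D.Fd δ) {j : ℤ} (hj : ∀ i : ℤ, α + ((i : ℝ) * D.cst δ α) • δ ∈ x ↔ j ≤ i) :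
    -C ≤ f α + j * D.cst δ α ∧ f α + j * D.cst δ α ≤ C + D.cst δ α := by
  obtain ⟨-, h2, h3, -⟩ := hTHR D δ hδ α hα
  have hrt : ∀ i : ℤ, α + ((i : ℝ) * D.cst δ α) • δ ∈ D.Rt := fun i => (h2 _).2 ⟨i, rfl⟩
  have hfd : ∀ i : ℤ, α + ((i : ℝ) * D.cst δ α) • δ ∈ D.Fd δ := fun i => (h3 _ (hrt i)).2
  have hfv : ∀ t : ℝ, f (α + t • δ) = f α + t := by
    intro t
    rw [map_add, map_smul, hf1, smul_eq_mul, mul_one]
  constructor
  · have h4 := hfx _ ((hj j).2 le_rfl) (hfd j)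
    rwa [hfv] at h4
  · have h5 : α + (((j - 1 : ℤ) : ℝ) * D.cst δ α) • δ ∉ x := by
      rw [hj (j - 1)]
      omega
    have h6 := (hx.tot _ (hrt (j - 1))).resolve_left h5
    have h7 : -(α + (((j - 1 : ℤ) : ℝ) * D.cst δ α) • δ) ∈ D.Fd δ :=
      (hTHR D δ hδ _ (hfd (j - 1))).2.2.2.1
    have h8 := hfx _ h6 h7
    rw [map_neg, hfv] at h8
    push_cast at h8
    linarith

theorem unq_thm (hTHR : Stmt_THR) (hORT : Stmt_ORT) : Stmt_UNQ := by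
  intro D K C hC
  obtain ⟨-, -, ⟨c0, c1, hc0, hcst⟩, ⟨n, hn⟩⟩ := hORT D
  set R : ℝ := 2 * C / c0 + 1 with hR
  obtain ⟨N1, hN1⟩ := exists_nat_gt ((n : ℝ) * R ^ 2)
  refine ⟨N1 + 1, Nat.succ_pos _, ?_⟩
  intro N hN Δ ν x y hM δ hδΔ hφ
  obtain ⟨φ, hφ, hνφ⟩ := hφ
  obtain ⟨hδ, -, -, -⟩ := hM.af δ hδΔ
  by_contra hcon
  push Not at hcon
  have hnx : D.Near K C x δ := by
    by_contra h
    exact hcon.1 ⟨hδ, h⟩
  have hny : D.Near K C y δ := by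
    by_contra h
    exact hcon.2 ⟨hδ, h⟩
  obtain ⟨f, hf1, hfK, hfx⟩ := hnx
  obtain ⟨f', hf1', hfK', hfx'⟩ := hny
  obtain ⟨-, -, -, -, -, -, -, -, ⟨A, hA⟩, -⟩ := hTHR D δ hδ φ hφ
  have hshd := hM.shd δ hδΔ
  have hort := hshd.ort A hA (f' - f) (by rw [LinearMap.sub_apply, hf1, hf1', sub_self]) (by
    intro ψ hψ hψK
    rw [LinearMap.sub_apply, hfK ψ hψ hψK, hfK' ψ hψ hψK, sub_self])
  -- the bound for each direction
  have key : ∀ α ∈ A, ((ν δ α : ℝ) + (f' - f) α / D.cst δ α) ^ 2 ≤ R ^ 2 := by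
    intro α hαA
    have hα := hA.1 α hαA
    obtain ⟨hc, h2, h3, -, -, -, h7, -⟩ := hTHR D δ hδ α hα
    obtain ⟨j, hj⟩ := h7 x hM.vx.1
    have hrt : ∀ i : ℤ, α + ((i : ℝ) * D.cst δ α) • δ ∈ D.Rt := fun i => (h2 _).2 ⟨i, rfl⟩
    have hj' : ∀ i : ℤ, α + ((i : ℝ) * D.cst δ α) • δ ∈ y ↔ j + ν δ α ≤ i := by
      intro i
      obtain ⟨h4, h5⟩ := h3 _ (hrt i)
      rw [hM.inn δ hδΔ _ h5, h4, hshd.dir α hα _ h5]
      have h6 : α + ((i : ℝ) * D.cst δ α) • δ - ((ν δ α : ℝ) * D.cst δ α) • δ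
          = α + (((i - ν δ α : ℤ) : ℝ) * D.cst δ α) • δ := by
        push_cast
        rw [sub_mul, sub_smul]
        abel
      rw [h6, hj]
      omega
    obtain ⟨hb1, hb2⟩ := thr_bound hTHR hδ hM.vx.1 hf1 hfx hα hj
    obtain ⟨hb3, hb4⟩ := thr_bound hTHR hδ hM.vy.1 hf1' hfx' hα hj'
    push_cast at hb3 hb4
    have hcc := (hcst δ hδ α hα).1
    have h8 : |(ν δ α : ℝ) + (f' - f) α / D.cst δ α| ≤ R := by
      have h9 : (ν δ α : ℝ) + (f' - f) α / D.cst δ α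
          = ((ν δ α : ℝ) * D.cst δ α + (f' α - f α)) / D.cst δ α := by
        rw [LinearMap.sub_apply]
        field_simp
      rw [h9, abs_div, abs_of_pos hc, div_le_iff₀ hc]
      have h10 : R * D.cst δ α = 2 * C * (D.cst δ α / c0) + D.cst δ α := by
        rw [hR]; ring
      have h11 : 1 ≤ D.cst δ α / c0 := (one_le_div hc0).2 hcc
      have h12 : 2 * C ≤ 2 * C * (D.cst δ α / c0) := by
        nlinarith
      rw [h10, abs_le]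
      constructor <;> nlinarith
    have h9 := abs_le.1 h8
    exact sq_le_sq' h9.1 h9.2
  have hsum : ∑ α ∈ A, ((ν δ α : ℝ)) ^ 2 ≤ n * R ^ 2 := by
    have h1 : ∑ α ∈ A, ((ν δ α : ℝ)) ^ 2 ≤
        ∑ α ∈ A, ((ν δ α : ℝ) + (f' - f) α / D.cst δ α) ^ 2 := by
      have h2 : ∑ α ∈ A, ((ν δ α : ℝ) + (f' - f) α / D.cst δ α) ^ 2
          = ∑ α ∈ A, ((ν δ α : ℝ)) ^ 2 + 2 * ∑ α ∈ A, (ν δ α : ℝ) * (f' - f) α / D.cst δ α
            + ∑ α ∈ A, ((f' - f) α / D.cst δ α) ^ 2 := by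
        rw [Finset.mul_sum, ← Finset.sum_add_distrib, ← Finset.sum_add_distrib]
        refine Finset.sum_congr rfl fun α _ => ?_
        ring
      rw [h2, hort]
      have h3 : 0 ≤ ∑ α ∈ A, ((f' - f) α / D.cst δ α) ^ 2 :=
        Finset.sum_nonneg fun α _ => sq_nonneg _
      linarith
    have h2 : ∑ α ∈ A, ((ν δ α : ℝ) + (f' - f) α / D.cst δ α) ^ 2 ≤ A.card * R ^ 2 := by
      have := Finset.sum_le_card_nsmul A _ _ key
      rwa [nsmul_eq_mul] at this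
    have h3 : (A.card : ℝ) ≤ n := by exact_mod_cast hn δ hδ A hA
    have h4 : 0 ≤ R ^ 2 := sq_nonneg R
    nlinarith
  -- the nonzero entry
  obtain ⟨α, ⟨hαA, t, hφt⟩, -⟩ := hA.2 φ hφ
  have hα := hA.1 α hαA
  have hνα : ν δ φ = ν δ α := by
    rw [hφt]
    exact hshd.dir α hα t (by rw [← hφt]; exact hφ)
  have h1 : (ν δ α : ℝ) ^ 2 ≤ n * R ^ 2 :=
    le_trans (Finset.single_le_sum (f := fun α => (ν δ α : ℝ) ^ 2) (fun _ _ => sq_nonneg _) hαA)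
      hsum
  have h2 : (N : ℤ) ≤ |ν δ α| := by
    have h3 := hshd.dvd α hα
    exact Int.le_of_dvd (abs_pos.2 (by rw [← hνα]; exact hνφ)) ((dvd_abs _ _).2 h3)
  have h3 : (N : ℝ) ≤ |(ν δ α : ℝ)| := by
    rw [← Int.cast_abs]
    exact_mod_cast h2
  have h4 : (N1 : ℝ) + 1 ≤ N := by exact_mod_cast hN
  have h5 : (0 : ℝ) ≤ N1 := Nat.cast_nonneg _
  have h6 : (N : ℝ) ^ 2 ≤ (ν δ α : ℝ) ^ 2 := by
    rw [← sq_abs (ν δ α : ℝ)]
    exact pow_le_pow_left₀ (by linarith) h3 2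
  nlinarith

end Pool.CS.UNQ94
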