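import Pool.Agent.Work.MP_64ea0f_cs.InterfaceE

set_option autoImplicit false

/-! # Block RTT (helper94): `RT x y` for `x` of finite order -/

namespace Pool.CS.RTT94

theorem mk_iff {W : Type} [Group W] {N : Subgroup W} [N.Normal] {a b : W} :
    a * b⁻¹ ∈ N ↔ (QuotientGroup.mk a : W ⧸ N) = QuotientGroup.mk b := by
  rw [QuotientGroup.eq_iff_div_mem, div_eq_mul_inv]

/-- the induction step -/
theorem step {W : Type} [Group W] {x y : W} {p : ℕ}
    (hloc : ∀ M : Subgroup W, M.Normal → M.FiniteIndex →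
      ∃ M1 : Subgroup W, M1.Normal ∧ M1.FiniteIndex ∧ ∀ y1, y1 ^ p = x ^ p → y1 * x⁻¹ ∈ M1 →
        ∃ m3 ∈ M, m3 * y1 * m3⁻¹ = x) (h : RT (x ^ p) (y ^ p)) : RT x y := by
  intro M hMn hMf
  obtain ⟨M1, h1n, h1f, h1⟩ := hloc M hMn hMf
  obtain ⟨M2, h2n, h2f, h2⟩ := h (M ⊓ M1) inferInstance inferInstance
  refine ⟨M2 ⊓ M1, inferInstance, inferInstance, fun c hc => ?_⟩
  obtain ⟨hc2, hc1⟩ := hc
  have hc3 : c * y ^ p * c⁻¹ * (x ^ p)⁻¹ ∈ M2 := by
    have h3 := (mk_iff (N := M2)).1 hc2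
    rw [mk_iff, ← conj_pow, QuotientGroup.mk_pow, QuotientGroup.mk_pow, h3]
  obtain ⟨m1, hm1, hm⟩ := h2 c hc3
  have h4 : ((m1 * c) * y * (m1 * c)⁻¹) ^ p = x ^ p := by rw [conj_pow, hm]
  have h5 : ((m1 * c) * y * (m1 * c)⁻¹) * x⁻¹ ∈ M1 := by
    have h6 := (mk_iff (N := M1)).1 hc1
    rw [mk_iff, ← h6]
    have h7 : (QuotientGroup.mk m1 : W ⧸ M1) = 1 := (QuotientGroup.eq_one_iff m1).2 hm1.2
    have h8 : (m1 * c) * y * (m1 * c)⁻¹ = m1 * (c * y * c⁻¹) * m1⁻¹ := by group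
    rw [h8, QuotientGroup.mk_mul, QuotientGroup.mk_mul, QuotientGroup.mk_inv, h7]
    simp
  obtain ⟨m3, hm3, hm4⟩ := h1 _ h4 h5
  refine ⟨m3 * m1, mul_mem hm3 hm1.1, ?_⟩
  rw [← hm4]
  group

theorem main (hRSF : Stmt_RSF) (hLOC : Stmt_LOC) (D : Rd) (hAF : D.AF) (n : ℕ) :
    ∀ x y : D.W, 0 < n → x ^ n = 1 → RT x y := by
  induction n using Nat.strong_induction_on with
  | _ n ih =>
  intro x y hn hx
  by_cases h1 : n = 1
  · rw [h1, pow_one] at hx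
    subst hx
    intro M hMn hMf
    by_cases hy : y = 1
    · subst hy
      exact ⟨M, hMn, hMf, fun c _ => ⟨1, one_mem _, by simp⟩⟩
    · obtain ⟨N, hNn, hNf, -, -, hN⟩ := hRSF D {y} (Set.finite_singleton y)
        (by rw [Set.mem_singleton_iff]; exact fun h => hy h.symm)
      refine ⟨N, hNn, hNf, fun c hc => ?_⟩
      rw [inv_one, mul_one] at hc
      have h2 : c⁻¹ * (c * y * c⁻¹) * c⁻¹⁻¹ ∈ N := hNn.conj_mem _ hc _
      have h3 : c⁻¹ * (c * y * c⁻¹) * c⁻¹⁻¹ = y := by group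
      rw [h3] at h2
      exact absurd h2 (hN y rfl)
  · have hp : n.minFac.Prime := Nat.minFac_prime h1
    obtain ⟨n', hn'⟩ := n.minFac_dvd
    have hn0 : 0 < n' := by
      rcases Nat.eq_zero_or_pos n' with h | h
      · rw [h, mul_zero] at hn'
        omega
      · exact h
    have hlt : n' < n := by
      rw [hn']
      exact lt_mul_of_one_lt_left hn0 hp.one_lt
    have hxp : (x ^ n.minFac) ^ n' = 1 := by rw [← pow_mul, ← hn', hx]
    exact step (fun M hMn hMf => hLOC D hAF x ⟨n, hn, hx⟩ n.minFac hp M hMn hMf)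
      (ih n' hlt _ _ hn0 hxp)

end Pool.CS.RTT94

namespace Pool.CS

theorem rtt_thm : Stmt_RSF → Stmt_LOC → Stmt_RTT := by
  rintro hRSF hLOC D hAF x y ⟨n, hn, hx⟩
  exact RTT94.main hRSF hLOC D hAF n x y hn hx

end Pool.CS
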